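import Pool.Agent.H61.CM.Two

/-!
# MP_bc729a_al: alternating groups are not composition factors

Let `G` be a finite group in which every maximal subgroup has a complement.  Then no alternating group
`Alt(m)` with `m ≥ 5`, `m ≠ 6`, is a composition factor of `G`: no subnormal subgroup of `G` has a
homomorphism onto `Alt(m)`.

The proof does not use the classification of finite simple groups.  A composition factor `T = Alt(m)`
leads to a chief factor `T ^ k` on which `G` acts through `Aut(T) wr Sym(k)`; for every class `C` of
maximal subgroups of `T` that is invariant under `Aut(T)`, the stabiliser in `G` of a family of members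
of `C` is a maximal subgroup of `G`, and a complement `K` of it acts regularly on `C ^ k`.  For `C` the
stabilisers of `l`-subsets with a suitable `l` this is impossible: for `m ≠ 7, 15` an element of order
2 or 3 of `K` fixes a family (number theory: `exists_ell`), and for `m = 7, 15` the projections of `K`
contain a group of odd order and degree `s + 2` with an element of order `s` (`odd_two`).
-/

namespace Pool.Agent.Results.MP_bc729a_al.NoAlternatingFactor

/-- Every maximal subgroup `M` of `G` has a complement: a subgroup `K` with `M K = G` and
`M ∩ K = 1`. -/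
def MaxSubgroupsComplemented (G : Type*) [Group G] : Prop :=
  ∀ M : Subgroup G, IsCoatom M → ∃ K : Subgroup G,
    (∀ g : G, ∃ m ∈ M, ∃ k ∈ K, g = m * k) ∧ M ⊓ K = ⊥

theorem result {G : Type*} [Group G] [Finite G] (hG : MaxSubgroupsComplemented G)
    (m : ℕ) (h5 : 5 ≤ m) (h6 : m ≠ 6) (K : Subgroup G) (hK : K.IsSubnormal)
    (f : K →* alternatingGroup (Fin m)) : ¬ Function.Surjective f := by
  intro hf
  have hcard : 5 ≤ Nat.card (Fin m) := by
    rw [Nat.card_eq_fintype_card, Fintype.card_fin]; exact h5
  have := alternatingGroup.isSimpleGroup hcard
  have hT : ∃ a b : alternatingGroup (Fin m), a * b ≠ b * a := by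
    have := Pool.Agent.H61.IG.Alt.alt_noncomm (n := m) h5
    push Not at this
    exact this
  obtain ⟨ι, hι, hι', ⟨W⟩⟩ := Pool.Agent.H61.CM.extract hT hK f hf
  exact Pool.Agent.H61.CM.no_alt h5 h6 W hG

end Pool.Agent.Results.MP_bc729a_al.NoAlternatingFactor
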