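import Pool.Agent.H61.CM.AltCls

/-!
# MP_bc729a_al: a criterion for a simple group to be no composition factor

Let `T` be a non-abelian simple group and `R` a maximal subgroup of `T` whose images under all
automorphisms of `T` are conjugate to `R` in `T`.  If `T` is a composition factor of a finite group in
which every maximal subgroup has a complement, then for every prime `r` dividing `|T : R|` there is an
automorphism `φ` of `T` with `φ ^ r = 1` that normalises no conjugate of `R` (so `φ` has order `r`).
-/

namespace Pool.Agent.Results.MP_bc729a_al.PrimeCriterion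

/-- Every maximal subgroup `M` of `G` has a complement: a subgroup `K` with `M K = G` and
`M ∩ K = 1`. -/
def MaxSubgroupsComplemented (G : Type*) [Group G] : Prop :=
  ∀ M : Subgroup G, IsCoatom M → ∃ K : Subgroup G,
    (∀ g : G, ∃ m ∈ M, ∃ k ∈ K, g = m * k) ∧ M ⊓ K = ⊥

/-- the image of the subgroup `R` under the automorphism `φ` -/
def img {T : Type*} [Group T] (φ : MulAut T) (R : Subgroup T) : Subgroup T := R.map φ.toMonoidHom

open Pool.Agent.H61.CM in
theorem result {G T : Type*} [Group G] [Finite G] (hG : MaxSubgroupsComplemented G)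
    [Group T] [IsSimpleGroup T] (hT : ∃ a b : T, a * b ≠ b * a)
    (K : Subgroup G) (hK : K.IsSubnormal) (f : K →* T) (hf : Function.Surjective f)
    (R : Subgroup T) (hR : IsCoatom R)
    (haut : ∀ φ : MulAut T, ∃ t : T, img φ R = img (MulAut.conj t) R)
    (r : ℕ) (hr : r.Prime) (hd : r ∣ R.index) :
    ∃ φ : MulAut T, φ ^ r = 1 ∧
      ∀ t : T, img φ (img (MulAut.conj t) R) ≠ img (MulAut.conj t) R := by
  classical
  obtain ⟨ι, hι, hι', ⟨W⟩⟩ := extract hT hK f hf
  let C : Set (Subgroup T) := {R' | ∃ t : T, R' = img (MulAut.conj t) R}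
  have hRC : R ∈ C := ⟨1, by
    show R = im (MulAut.conj 1) R
    exact (im_id (fun t => by simp) R).symm⟩
  have hcomp : ∀ s t : T, im (MulAut.conj (s * t)) R = im (MulAut.conj s) (im (MulAut.conj t) R) :=
    fun s t => im_comp (fun x => by simp only [MulAut.conj_apply]; group) R
  have hco : ∀ (φ : MulAut T) (A : Subgroup T), IsCoatom A → IsCoatom (im φ A) := by
    intro φ A hA
    refine ⟨?_, ?_⟩
    · intro h
      apply hA.1
      rw [eq_top_iff]
      intro x _
      rw [← apply_mem_im (φ := φ), h]; trivial
    · intro B hB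
      have h1 : A < im φ⁻¹ B := by
        constructor
        · intro x hx
          rw [mem_im]
          exact hB.le (apply_mem_im.2 hx)
        · intro hle
          apply hB.not_ge
          intro x hx
          rw [mem_im]
          apply hle
          rw [mem_im]
          show φ (φ.symm x) ∈ B
          rwa [MulEquiv.apply_symm_apply]
      have h2 := hA.2 _ h1
      rw [eq_top_iff]
      intro x _
      have h3 : φ⁻¹ x ∈ im φ⁻¹ B := by rw [h2]; trivial
      rwa [apply_mem_im] at h3
  have hC : Cls T C := by
    refine ⟨⟨R, hRC⟩, ?_, ?_, ?_⟩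
    · rintro _ ⟨t, rfl⟩
      exact hco _ _ hR
    · rintro _ ⟨s, rfl⟩ _ ⟨t, rfl⟩
      refine ⟨t * s⁻¹, ?_⟩
      show im (MulAut.conj (t * s⁻¹)) (im (MulAut.conj s) R) = im (MulAut.conj t) R
      symm
      exact im_comp (fun x => by simp only [MulAut.conj_apply]; group) R
    · rintro _ ⟨s, rfl⟩ φ
      obtain ⟨t, ht⟩ := haut φ
      refine ⟨φ s * t, ?_⟩
      show im φ (im (MulAut.conj s) R) = im (MulAut.conj (φ s * t)) R
      rw [hcomp, show im (MulAut.conj t) R = im φ R from ht.symm]
      rw [← im_comp (φ := φ) (ψ := MulAut.conj s) (χ := (MulAut.conj (φ s)) * φ)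
        (fun x => by simp [MulAut.conj_apply])]
      exact im_comp (fun x => rfl) R
  by_contra hcon
  push Not at hcon
  refine W.criterion hT hC hG hr ?_ ?_
  · rw [card_cls hT hC hRC]; exact hd
  · intro φ hφ
    obtain ⟨t, ht⟩ := hcon φ hφ
    exact ⟨_, ⟨t, rfl⟩, ht⟩

end Pool.Agent.Results.MP_bc729a_al.PrimeCriterion
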